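import Pool.Agent.helper73.BRZ.Spec

/-!
# Row POA of project brz: Poisson summation for the lattice of integral vectors

The first part (Poisson summation on the space of functions on a finite type) is a copy of
Pool/Agent/helper16/HC/PA1.lean (project HC).
-/

set_option autoImplicit false

open scoped BigOperators ComplexConjugate Matrix Topology
open MeasureTheory Filter

namespace Pool.Agent.BRZ

section POA_first

/-! ## summability of products -/

theorem POA_summ_int : Summable (fun n : ℤ => ((1 + |(n : ℝ)|) ^ 2)⁻¹) := by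
  have h1 : Summable (fun n : ℕ => (((n : ℝ) + 1) ^ 2)⁻¹) := by
    have := (summable_nat_add_iff 1).mpr (Real.summable_nat_pow_inv.mpr (show 1 < 2 by norm_num))
    simpa using this
  apply Summable.of_nat_of_neg
  · refine h1.congr fun n => ?_
    rw [Int.cast_natCast, abs_of_nonneg (Nat.cast_nonneg n), add_comm]
  · refine h1.congr fun n => ?_
    rw [Int.cast_neg, Int.cast_natCast, abs_neg, abs_of_nonneg (Nat.cast_nonneg n), add_comm]

theorem POA_summ_prod {G : Type} [Fintype G] (g : ℤ → ℝ) (hg : ∀ n, 0 ≤ g n) (hs : Summable g) :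
    Summable (fun n : G → ℤ => ∏ i, g (n i)) := by
  classical
  apply summable_of_sum_le (c := (∑' n, g n) ^ Fintype.card G)
  · intro n
    exact Finset.prod_nonneg fun i _ => hg _
  · intro u
    let t : G → Finset ℤ := fun i => u.image (fun n => n i)
    have h1 : u ⊆ Fintype.piFinset t := by
      intro n hn
      rw [Fintype.mem_piFinset]
      intro i
      exact Finset.mem_image.mpr ⟨n, hn, rfl⟩
    calc ∑ n ∈ u, ∏ i, g (n i) ≤ ∑ n ∈ Fintype.piFinset t, ∏ i, g (n i) :=
          Finset.sum_le_sum_of_subset_of_nonneg h1 fun n _ _ => Finset.prod_nonneg fun i _ => hg _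
      _ = ∏ i, ∑ x ∈ t i, g x := (Finset.prod_univ_sum t (fun _ x => g x)).symm
      _ ≤ ∏ _i : G, (∑' n, g n) := by
          apply Finset.prod_le_prod
          · intro i _
            exact Finset.sum_nonneg fun x _ => hg x
          · intro i _
            exact hs.sum_le_tsum _ fun x _ => hg x
      _ = (∑' n, g n) ^ Fintype.card G := by simp

theorem POA_summ {G : Type} [Fintype G] (R : ℝ) :
    Summable (fun n : G → ℤ => R * ∏ i, ((1 + |(n i : ℝ)|) ^ 2)⁻¹) :=
  (POA_summ_prod _ (fun n => by positivity) POA_summ_int).mul_left R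

/-! ## bounds -/

section
variable {G : Type} [Fintype G] {f : (G → ℝ) → ℂ} {C : ℝ}

theorem POA_C (hb : ∀ x, ‖f x‖ * ∏ i, (1 + |x i|) ^ 2 ≤ C) : 0 ≤ C :=
  le_trans (mul_nonneg (norm_nonneg _) (Finset.prod_nonneg fun i _ => by positivity)) (hb 0)

theorem POA_bd (hb : ∀ x, ‖f x‖ * ∏ i, (1 + |x i|) ^ 2 ≤ C) (x : G → ℝ) :
    ‖f x‖ ≤ C * ∏ i, ((1 + |x i|) ^ 2)⁻¹ := by
  have hp : 0 < ∏ i, (1 + |x i|) ^ 2 := Finset.prod_pos fun i _ => by positivity
  have := hb x
  rw [Finset.prod_inv_distrib, ← div_eq_mul_inv, le_div_iff₀ hp]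
  exact this

theorem POA_int (hf : Continuous f) (hb : ∀ x, ‖f x‖ * ∏ i, (1 + |x i|) ^ 2 ≤ C) :
    Integrable f := by
  have h1 : Integrable (fun x : G → ℝ => C * ∏ i, (1 + x i ^ 2)⁻¹) := by
    apply Integrable.const_mul
    exact Integrable.fintype_prod (f := fun _ x => (1 + x ^ 2)⁻¹) (fun i => integrable_inv_one_add_sq)
  apply h1.mono' hf.aestronglyMeasurable
  filter_upwards with x
  refine (POA_bd hb x).trans ?_
  apply mul_le_mul_of_nonneg_left _ (POA_C hb)
  apply Finset.prod_le_prod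
  · intro i _; positivity
  · intro i _
    apply inv_anti₀ (by positivity)
    have := abs_nonneg (x i)
    have h2 := sq_abs (x i)
    nlinarith

theorem POA_shift (hb : ∀ x, ‖f x‖ * ∏ i, (1 + |x i|) ^ 2 ≤ C) (R : ℝ) (hR : 0 ≤ R) (x : G → ℝ)
    (hx : ∀ i, |x i| ≤ R) (n : G → ℤ) :
    ‖f (fun i => x i + n i)‖ ≤ (C * ((1 + R) ^ 2) ^ Fintype.card G) * ∏ i, ((1 + |(n i : ℝ)|) ^ 2)⁻¹ := by
  refine (POA_bd hb _).trans ?_
  rw [mul_assoc]
  apply mul_le_mul_of_nonneg_left _ (POA_C hb)
  have h1 : ((1 + R) ^ 2) ^ Fintype.card G = ∏ _i : G, (1 + R) ^ 2 := by simp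
  rw [h1, ← Finset.prod_mul_distrib]
  apply Finset.prod_le_prod
  · intro i _; positivity
  · intro i _
    rw [← div_eq_mul_inv, inv_eq_one_div, div_le_div_iff₀ (by positivity) (by positivity), one_mul,
      ← mul_pow]
    apply pow_le_pow_left₀ (by positivity)
    have h2 : |(n i : ℝ)| ≤ |x i + n i| + |x i| := by
      have : (n i : ℝ) = (x i + n i) - x i := by ring
      calc |(n i : ℝ)| = |(x i + n i) - x i| := by rw [← this]
        _ ≤ |x i + n i| + |x i| := abs_sub _ _
    have h3 := hx i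
    have h4 := abs_nonneg (x i + n i)
    have h5 := abs_nonneg (x i)
    nlinarith

/-- the periodisation -/
noncomputable def POA_F (f : (G → ℝ) → ℂ) (x : G → ℝ) : ℂ :=
  ∑' n : G → ℤ, f (fun i => x i + n i)

theorem POA_F_summ (hb : ∀ x, ‖f x‖ * ∏ i, (1 + |x i|) ^ 2 ≤ C) (x : G → ℝ) :
    Summable (fun n : G → ℤ => f (fun i => x i + n i)) := by
  apply Summable.of_norm_bounded (POA_summ (G := G) (C * ((1 + ∑ i, |x i|) ^ 2) ^ Fintype.card G))
  intro n
  apply POA_shift hb _ (Finset.sum_nonneg fun i _ => abs_nonneg _)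
  intro i
  exact Finset.single_le_sum (f := fun i => |x i|) (fun j _ => abs_nonneg _) (Finset.mem_univ i)

theorem POA_F_cont (hf : Continuous f) (hb : ∀ x, ‖f x‖ * ∏ i, (1 + |x i|) ^ 2 ≤ C) :
    Continuous (POA_F f) := by
  rw [continuous_iff_continuousAt]
  intro x0
  set R : ℝ := ‖x0‖ + 1 with hR
  have hR0 : 0 ≤ R := by positivity
  have h1 : ContinuousOn (POA_F f) (Metric.ball x0 1) := by
    apply continuousOn_tsum (u := fun n : G → ℤ =>
      (C * ((1 + R) ^ 2) ^ Fintype.card G) * ∏ i, ((1 + |(n i : ℝ)|) ^ 2)⁻¹)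
    · intro n
      apply Continuous.continuousOn
      apply hf.comp
      exact continuous_pi fun i => (continuous_apply i).add continuous_const
    · exact POA_summ _
    · intro n x hx
      apply POA_shift hb R hR0
      intro i
      have h2 : ‖x i‖ ≤ ‖x‖ := norm_le_pi_norm x i
      have h3 : ‖x‖ ≤ ‖x0‖ + 1 := by
        have h4 : ‖x - x0‖ < 1 := by rw [← dist_eq_norm]; exact hx
        have h5 : ‖x‖ ≤ ‖x - x0‖ + ‖x0‖ := by
          have := norm_add_le (x - x0) x0
          rwa [sub_add_cancel] at this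
        linarith
      rw [Real.norm_eq_abs] at h2
      linarith
  exact h1.continuousAt (Metric.ball_mem_nhds _ one_pos)

omit [Fintype G] in
theorem POA_F_per (f : (G → ℝ) → ℂ) (x : G → ℝ) (m : G → ℤ) :
    POA_F f (fun i => x i + m i) = POA_F f x := by
  unfold POA_F
  rw [← (Equiv.addLeft m).tsum_eq (fun n : G → ℤ => f (fun i => x i + n i))]
  apply tsum_congr
  intro n
  congr 1
  funext i
  simp only [Equiv.coe_addLeft, Pi.add_apply]
  push_cast
  ring

/-! ## the function on the torus -/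

/-- the projection to the torus -/
def POA_q (x : G → ℝ) : UnitAddTorus (G) := fun i => (x i : UnitAddCircle)

omit [Fintype G] in
theorem POA_q_quot : IsOpenQuotientMap (POA_q (G := G)) :=
  IsOpenQuotientMap.piMap (fun _ => QuotientAddGroup.isOpenQuotientMap_mk)

/-- descent -/
noncomputable def POA_P (f : (G → ℝ) → ℂ) (y : UnitAddTorus (G)) : ℂ :=
  POA_F f (Function.surjInv POA_q_quot.surjective y)

omit [Fintype G] in
theorem POA_P_q (f : (G → ℝ) → ℂ) (x : G → ℝ) : POA_P f (POA_q x) = POA_F f x := by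
  unfold POA_P
  set z := Function.surjInv POA_q_quot.surjective (POA_q x) with hz
  have h1 : POA_q z = POA_q x := Function.surjInv_eq POA_q_quot.surjective (POA_q x)
  have h2 : ∀ i, ∃ m : ℤ, z i = x i + m := by
    intro i
    have h3 : (z i : UnitAddCircle) = (x i : UnitAddCircle) := congrFun h1 i
    rw [QuotientAddGroup.eq] at h3
    rw [AddSubgroup.mem_zmultiples_iff] at h3
    obtain ⟨k, hk⟩ := h3
    refine ⟨-k, ?_⟩
    rw [zsmul_eq_mul, mul_one] at hk
    push_cast
    linarith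
  choose m hm using h2
  have h4 : z = fun i => x i + m i := funext hm
  rw [h4, POA_F_per]

theorem POA_P_cont (hf : Continuous f) (hb : ∀ x, ‖f x‖ * ∏ i, (1 + |x i|) ^ 2 ≤ C) :
    Continuous (POA_P f) := by
  rw [POA_q_quot.isQuotientMap.continuous_iff]
  have : POA_P f ∘ POA_q = POA_F f := funext fun x => POA_P_q f x
  rw [this]
  exact POA_F_cont hf hb

/-! ## Fourier coefficients -/

/-- the character -/
noncomputable def POA_e (n : G → ℤ) (x : G → ℝ) : ℂ :=
  Complex.exp (-(2 * Real.pi * Complex.I * ∑ i, (n i : ℂ) * (x i : ℂ)))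

theorem POA_e_eq (n : G → ℤ) (x : G → ℝ) :
    UnitAddTorus.mFourier (-n) (POA_q x) = POA_e n x := by
  unfold POA_e UnitAddTorus.mFourier
  simp only [ContinuousMap.coe_mk, POA_q]
  have h : ∀ i, (fourier ((-n) i)) ((x i : ℝ) : UnitAddCircle) =
      Complex.exp (-(2 * Real.pi * Complex.I * ((n i : ℂ) * (x i : ℂ)))) := by
    intro i
    rw [fourier_coe_apply]
    congr 1
    simp only [Pi.neg_apply]
    push_cast
    ring
  rw [Finset.prod_congr rfl (fun i _ => h i), ← Complex.exp_sum]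
  congr 1
  rw [Finset.mul_sum, Finset.sum_neg_distrib]

theorem POA_e_norm (n : G → ℤ) (x : G → ℝ) : ‖POA_e n x‖ = 1 := by
  unfold POA_e
  rw [Complex.norm_exp]
  have : (-(2 * Real.pi * Complex.I * ∑ i, (n i : ℂ) * (x i : ℂ))) =
      ((-(2 * Real.pi * ∑ i, (n i : ℝ) * x i) : ℝ) : ℂ) * Complex.I := by
    push_cast; ring
  rw [this, Complex.re_ofReal_mul]
  simp

theorem POA_e_cont (n : G → ℤ) : Continuous (POA_e n) := by
  unfold POA_e
  fun_prop

theorem POA_e_per (n : G → ℤ) (x : G → ℝ) (m : G → ℤ) :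
    POA_e n (fun i => x i + m i) = POA_e n x := by
  unfold POA_e
  rw [Complex.exp_eq_exp_iff_exists_int]
  refine ⟨-(∑ i, n i * m i), ?_⟩
  push_cast
  rw [← sub_eq_iff_eq_add']
  rw [neg_sub_neg, ← mul_sub, ← Finset.sum_sub_distrib]
  have : ∀ i, ((n i : ℂ) * (x i : ℂ) - (n i : ℂ) * ((x i : ℂ) + (m i : ℂ))) =
      -((n i : ℂ) * (m i : ℂ)) := fun i => by ring
  rw [Finset.sum_congr rfl (fun i _ => this i), Finset.sum_neg_distrib]
  ring

/-- the unit cube -/
def POA_cube (G : Type) : Set (G → ℝ) := {x | ∀ i, x i ∈ Set.Ioc (0 : ℝ) (0 + 1)}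

theorem POA_cube_meas : MeasurableSet (POA_cube G) :=
  MeasurableSet.univ_pi' (fun _ => measurableSet_Ioc)

theorem POA_cube_finite : volume (POA_cube G) ≠ ⊤ := by
  have h : POA_cube G ⊆ Set.pi Set.univ (fun _ => Set.Icc (0 : ℝ) 1) := by
    intro x hx i _
    have := hx i
    exact ⟨this.1.le, by simpa using this.2⟩
  apply ne_top_of_le_ne_top _ (measure_mono h)
  exact (isCompact_univ_pi fun _ => isCompact_Icc).measure_lt_top.ne

/-- the translates of the cube -/
def POA_s (m : G → ℤ) : Set (G → ℝ) := {x | (fun i => x i - m i) ∈ POA_cube G}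

theorem POA_s_meas (m : G → ℤ) : MeasurableSet (POA_s m) := by
  apply measurableSet_preimage _ POA_cube_meas
  exact measurable_pi_lambda _ fun i => (measurable_pi_apply i).sub_const _

omit [Fintype G] in
theorem POA_s_disj : Pairwise (Function.onFun Disjoint (POA_s (G := G))) := by
  intro m n hmn
  rw [Function.onFun, Set.disjoint_left]
  intro x hx hy
  apply hmn
  funext i
  have h1 := hx i
  have h2 := hy i
  simp only [zero_add, Set.mem_Ioc] at h1 h2
  have h3 : (m i : ℝ) < n i + 1 := by linarith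
  have h4 : (n i : ℝ) < m i + 1 := by linarith
  have h5 : m i < n i + 1 := by exact_mod_cast h3
  have h6 : n i < m i + 1 := by exact_mod_cast h4
  omega

omit [Fintype G] in
theorem POA_s_union : (⋃ m : G → ℤ, POA_s m) = Set.univ := by
  rw [Set.eq_univ_iff_forall]
  intro x
  rw [Set.mem_iUnion]
  refine ⟨fun i => ⌈x i⌉ - 1, fun i => ?_⟩
  have h1 := Int.le_ceil (x i)
  have h2 := Int.ceil_lt_add_one (x i)
  simp only [zero_add, Set.mem_Ioc]
  push_cast
  constructor <;> linarith

theorem POA_trans (g : (G → ℝ) → ℂ) (m : G → ℤ) :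
    ∫ x in POA_s m, g x = ∫ x in POA_cube G, g (fun i => x i + m i) := by
  rw [← integral_indicator (POA_s_meas m), ← integral_indicator POA_cube_meas]
  rw [← integral_sub_right_eq_self (μ := volume)
    ((POA_cube G).indicator fun x => g (fun i => x i + m i)) (fun i => (m i : ℝ))]
  congr 1
  funext x
  by_cases hx : x ∈ POA_s m
  · rw [Set.indicator_of_mem hx, Set.indicator_of_mem (show x - (fun i => (m i : ℝ)) ∈ POA_cube G from hx)]
    congr 1
    funext i
    simp
  · rw [Set.indicator_of_notMem hx,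
      Set.indicator_of_notMem (show x - (fun i => (m i : ℝ)) ∉ POA_cube G from hx)]

theorem POA_coeff (hf : Continuous f) (hb : ∀ x, ‖f x‖ * ∏ i, (1 + |x i|) ^ 2 ≤ C) (n : G → ℤ) :
    UnitAddTorus.mFourierCoeff (POA_P f) n = ∫ x : G → ℝ, f x * POA_e n x := by
  have hint : Integrable (fun x => f x * POA_e n x) := by
    have h1 := POA_int hf hb
    apply h1.norm.mono' ((hf.mul (POA_e_cont n)).aestronglyMeasurable)
    filter_upwards with x
    rw [Pi.mul_apply, norm_mul, POA_e_norm, mul_one]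
  rw [UnitAddTorus.mFourierCoeff_eq_integral (POA_P f) n (fun _ => 0)]
  -- right side as a sum
  have h2 := hasSum_integral_iUnion (μ := volume) (f := fun x => f x * POA_e n x)
    (fun m => POA_s_meas (G := G) m) POA_s_disj (by rw [POA_s_union]; exact hint.integrableOn)
  rw [POA_s_union, Measure.restrict_univ] at h2
  rw [← h2.tsum_eq]
  -- left side as a sum
  have hbd : ∀ m : G → ℤ, ∀ x ∈ POA_cube G, ‖f (fun i => x i + m i) * POA_e n x‖ ≤
      (C * ((1 + 1) ^ 2) ^ Fintype.card G) * ∏ i, ((1 + |(m i : ℝ)|) ^ 2)⁻¹ := by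
    intro m x hx
    rw [norm_mul, POA_e_norm, mul_one]
    apply POA_shift hb 1 (by norm_num)
    intro i
    have := hx i
    simp only [zero_add, Set.mem_Ioc] at this
    rw [abs_le]
    constructor <;> linarith
  have hmeas : ∀ m : G → ℤ, Continuous (fun x => f (fun i => x i + m i) * POA_e n x) := by
    intro m
    apply Continuous.mul _ (POA_e_cont n)
    apply hf.comp
    exact continuous_pi fun i => (continuous_apply i).add continuous_const
  have hfin : IsFiniteMeasure (volume.restrict (POA_cube G)) :=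
    ⟨by rw [Measure.restrict_apply_univ]; exact lt_top_iff_ne_top.mpr POA_cube_finite⟩
  have h3 := hasSum_integral_of_summable_integral_norm (μ := volume.restrict (POA_cube G))
    (F := fun (m : G → ℤ) x => f (fun i => x i + m i) * POA_e n x)
    (by
      intro m
      apply Integrable.of_bound (hmeas m).aestronglyMeasurable
        ((C * ((1 + 1) ^ 2) ^ Fintype.card G) * ∏ i, ((1 + |(m i : ℝ)|) ^ 2)⁻¹)
      rw [ae_restrict_iff' POA_cube_meas]
      filter_upwards with x hx
      exact hbd m x hx)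
    (by
      apply Summable.of_nonneg_of_le _ _
        ((POA_summ (G := G) (C * ((1 + 1) ^ 2) ^ Fintype.card G)).mul_right (volume.real (POA_cube G)))
      · intro m
        exact integral_nonneg fun x => norm_nonneg _
      · intro m
        have h4 := norm_setIntegral_le_of_norm_le_const (μ := volume)
          (lt_top_iff_ne_top.mpr (POA_cube_finite (G := G)))
          (f := fun x => ‖f (fun i => x i + m i) * POA_e n x‖) (fun x hx => by
            rw [norm_norm]; exact hbd m x hx)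
        refine (le_abs_self _).trans ?_
        rw [← Real.norm_eq_abs]
        exact h4)
  have h5 : ∫ x in POA_cube G, UnitAddTorus.mFourier (-n) (fun i => (x i : UnitAddCircle)) •
      POA_P f (fun i => (x i : UnitAddCircle)) =
      ∫ x in POA_cube G, ∑' m : G → ℤ, f (fun i => x i + m i) * POA_e n x := by
    congr 1
    funext x
    rw [tsum_mul_right]
    have e1 := POA_e_eq n x
    have e2 := POA_P_q f x
    unfold POA_q at e1 e2
    rw [e1, e2, smul_eq_mul, mul_comm]
    rfl
  have h6 : (∫ (x : G → ℝ) in {x | ∀ (i : G), x i ∈ Set.Ioc (0 : ℝ) (0 + 1)},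
      UnitAddTorus.mFourier (-n) (fun i => (x i : UnitAddCircle)) •
        POA_P f (fun i => (x i : UnitAddCircle))) =
      ∫ x in POA_cube G, UnitAddTorus.mFourier (-n) (fun i => (x i : UnitAddCircle)) •
        POA_P f (fun i => (x i : UnitAddCircle)) := rfl
  rw [h6, h5, ← h3.tsum_eq]
  apply tsum_congr
  intro m
  rw [POA_trans]
  congr 1
  funext x
  rw [POA_e_per]

/-- Poisson summation for a general finite index type -/
theorem POA_gen (f : (G → ℝ) → ℂ) (C : ℝ) (hf : Continuous f)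
    (hb : ∀ x, ‖f x‖ * ∏ i, (1 + |x i|) ^ 2 ≤ C)
    (hsum : Summable (fun n : G → ℤ => ‖∫ x : G → ℝ, f x *
      Complex.exp (-(2 * Real.pi * Complex.I * ∑ i, (n i : ℂ) * (x i : ℂ)))‖)) :
    ∑' n : G → ℤ, f (fun i => (n i : ℝ)) =
      ∑' n : G → ℤ, ∫ x : G → ℝ, f x *
        Complex.exp (-(2 * Real.pi * Complex.I * ∑ i, (n i : ℂ) * (x i : ℂ))) := by
  have hcoeff := POA_coeff hf hb
  let Φ : C(UnitAddTorus (G), ℂ) := ⟨POA_P f, POA_P_cont hf hb⟩
  have hΦ : ∀ n, UnitAddTorus.mFourierCoeff Φ n = ∫ x : G → ℝ, f x *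
      Complex.exp (-(2 * Real.pi * Complex.I * ∑ i, (n i : ℂ) * (x i : ℂ))) := hcoeff
  have hs : Summable (UnitAddTorus.mFourierCoeff Φ) := by
    apply Summable.of_norm
    refine hsum.congr fun n => ?_
    rw [hΦ n]
  have h1 := UnitAddTorus.hasSum_mFourier_series_apply_of_summable hs (POA_q 0)
  have h2 : Φ (POA_q 0) = ∑' n : G → ℤ, f (fun i => (n i : ℝ)) := by
    show POA_P f (POA_q 0) = _
    rw [POA_P_q]
    unfold POA_F
    simp
  rw [← h2, ← h1.tsum_eq]
  apply tsum_congr
  intro n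
  rw [hΦ n]
  have h3 : UnitAddTorus.mFourier n (POA_q (0 : G → ℝ)) = 1 := by
    have := POA_e_eq (-n) (0 : G → ℝ)
    rw [neg_neg] at this
    rw [this]
    unfold POA_e
    simp
  rw [h3, smul_eq_mul, mul_one]

end


end POA_first

section POA_second

open Matrix Module Pool.Agent.PR Pool.Agent.SHL TensorProduct MeasureTheory
open scoped ENNReal ContDiff RealInnerProductSpace FourierTransform SchwartzMap

theorem POA_decay (N : ℕ) (f : 𝓢(EE N, ℂ)) :
    ∃ C : ℝ, ∀ x : Fin N → ℝ, ‖f (WithLp.toLp 2 x)‖ * ∏ i, (1 + |x i|) ^ 2 ≤ C := by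
  refine ⟨2 ^ (2 * N) * (Finset.Iic ((2 * N, 0) : ℕ × ℕ)).sup
    (fun m => SchwartzMap.seminorm ℝ m.1 m.2) f, fun x => ?_⟩
  have h := SchwartzMap.one_add_le_sup_seminorm_apply (𝕜 := ℝ) (m := (2 * N, 0)) (k := 2 * N)
    (n := 0) le_rfl le_rfl f (WithLp.toLp 2 x)
  rw [norm_iteratedFDeriv_zero] at h
  refine le_trans ?_ h
  rw [mul_comm]
  apply mul_le_mul_of_nonneg_right _ (norm_nonneg _)
  have h1 : (1 + ‖(WithLp.toLp 2 x : EE N)‖) ^ (2 * N) =
      ∏ _i : Fin N, (1 + ‖(WithLp.toLp 2 x : EE N)‖) ^ 2 := by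
    rw [Finset.prod_const, Finset.card_univ, Fintype.card_fin, ← pow_mul]
  rw [h1]
  apply Finset.prod_le_prod
  · intro i _; positivity
  · intro i _
    apply pow_le_pow_left₀ (by positivity)
    have h2 : ‖x i‖ ≤ ‖(WithLp.toLp 2 x : EE N)‖ := PiLp.norm_apply_le (WithLp.toLp 2 x : EE N) i
    rw [Real.norm_eq_abs] at h2
    linarith

theorem POA_summable (N : ℕ) (f : 𝓢(EE N, ℂ)) : Summable (fun n : Fin N → ℤ => f (zv n)) := by
  obtain ⟨C, hC⟩ := POA_decay N f
  have h := POA_F_summ (G := Fin N) (f := fun x => f (WithLp.toLp 2 x)) hC 0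
  refine h.congr fun n => ?_
  simp only [Pi.zero_apply, zero_add]
  rfl

theorem POA_fourier (N : ℕ) (f : 𝓢(EE N, ℂ)) (n : Fin N → ℤ) :
    𝓕 (f : EE N → ℂ) (zv n) = ∫ x : Fin N → ℝ, f (WithLp.toLp 2 x) *
      Complex.exp (-(2 * Real.pi * Complex.I * ∑ i, (n i : ℂ) * (x i : ℂ))) := by
  rw [Real.fourier_eq', ← (PiLp.volume_preserving_toLp (Fin N)).integral_comp
    (MeasurableEquiv.toLp 2 (Fin N → ℝ)).measurableEmbedding]
  congr 1
  funext x
  rw [smul_eq_mul, mul_comm]
  congr 2
  have h1 : ⟪(WithLp.toLp 2 x : EE N), zv n⟫ = ∑ i, (n i : ℝ) * x i := by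
    rw [PiLp.inner_apply]
    rfl
  rw [h1]
  push_cast
  ring

theorem POA : POA_stmt := by
  intro N f
  refine ⟨POA_summable N f, ?_, ?_⟩
  · exact POA_summable N (𝓕 f)
  · obtain ⟨C, hC⟩ := POA_decay N f
    have h1 := POA_gen (G := Fin N) (fun x => f (WithLp.toLp 2 x)) C
      (f.continuous.comp (PiLp.continuous_toLp 2 _)) hC
      (by
        have h2 := (POA_summable N (𝓕 f)).norm
        refine h2.congr fun n => ?_
        rw [← POA_fourier]
        rfl)
    have h3 : ∑' n : Fin N → ℤ, f (zv n) =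
        ∑' n : Fin N → ℤ, (fun x => f (WithLp.toLp 2 x)) (fun i => (n i : ℝ)) := rfl
    rw [h3, h1]
    refine tsum_congr fun n => ?_
    rw [POA_fourier]

end POA_second

end Pool.Agent.BRZ
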